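import Pool.Agent.Lib_helper57.QI.E0

/-!
# ER: Lemma R
-/

set_option autoImplicit false

namespace H57.QI

variable {H : Type} [Group H]

namespace Geo

variable (D : Geo H)

theorem height_fin {g : H} (hg : D.e g = 0) (hx : D.x g ≠ 0) :
    ∃ h : ℕ, ∀ m : H, D.L (m⁻¹ * (g * m)) ≤ D.L g → |D.e m| ≤ h := by
  have hfin := (D.finite_ball (‖D.x g‖ + D.L g)).image D.x
  have hpre : {j : ℤ | D.al ^ (-j) * D.x g ∈ D.x '' {g' | D.N g' ≤ ‖D.x g‖ + D.L g}}.Finite := by
    apply hfin.preimage (f := fun j : ℤ => D.al ^ (-j) * D.x g)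
    intro i _ j _ hij
    have h1 := mul_right_cancel₀ hx hij
    have h2 := D.al_zpow_inj h1
    omega
  obtain ⟨b, hb⟩ := (hpre.image (fun j : ℤ => |j|)).bddAbove
  refine ⟨b.toNat, fun m hm => ?_⟩
  have hmem : D.e m ∈ {j : ℤ | D.al ^ (-j) * D.x g ∈ D.x '' {g' | D.N g' ≤ ‖D.x g‖ + D.L g}} := by
    refine ⟨m⁻¹ * g * m, ?_, ?_⟩
    · show D.N _ ≤ _
      unfold Geo.N
      rw [D.x_conj, hg, zpow_zero, sub_self, zero_mul, add_zero, norm_mul, D.norm_al_zpow, one_mul]
      rw [mul_assoc]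
      have : (D.L (m⁻¹ * (g * m)) : ℝ) ≤ D.L g := by exact_mod_cast hm
      linarith
    · rw [D.x_conj, hg, zpow_zero, sub_self, zero_mul, add_zero]
  have := hb ⟨D.e m, hmem, rfl⟩
  simp only at this
  omega

/-- the geometric core of Lemma R -/
theorem tree_bound {g1 g2 : H} (he : D.e g1 = D.e g2) (hn : 0 < D.e g1)
    (hc : D.cen g1 ≠ D.cen g2) :
    ∃ M : ℕ, ∀ (v : H) (Δ : ℕ), D.L (v⁻¹ * (g1 * v)) ≤ Δ → D.L (v⁻¹ * (g2 * v)) ≤ Δ →
      D.L v ≤ 2 * Δ + M := by
  set g := g1⁻¹ * g2 with hg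
  have eg : D.e g = 0 := by
    rw [hg, D.e_mul, D.e_inv, he]; ring
  have hx : D.x g ≠ 0 := by
    rw [hg, D.x_inv_mul, D.x_eq_cen hn.ne', D.x_eq_cen (he ▸ hn.ne'), ← he, ← mul_sub]
    apply mul_ne_zero (zpow_ne_zero _ D.al_ne_zero)
    apply mul_ne_zero
    · rw [sub_ne_zero]
      exact (D.al_zpow_ne_one hn.ne').symm
    · rw [sub_ne_zero]
      exact hc.symm
  obtain ⟨h, hh⟩ := D.height_fin eg hx
  set Cn := max (D.L g) (D.L g1) + 1 with hCn
  have c1 : D.L g < Cn := by omega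
  have c2 : D.L g1 < Cn := by omega
  set J := 2 * h + 1 with hJ
  refine ⟨(2 * J + 1) * Cn + 1, fun v Δ h1 h2 => ?_⟩
  by_contra hcon
  push Not at hcon
  have hv : D.L (v⁻¹ * (g * v)) ≤ 2 * Δ := by
    have e1 : v⁻¹ * (g * v) = (v⁻¹ * (g1 * v))⁻¹ * (v⁻¹ * (g2 * v)) := by
      rw [hg]; group
    rw [e1]
    have := D.L_mul (v⁻¹ * (g1 * v))⁻¹ (v⁻¹ * (g2 * v))
    rw [D.L_inv] at this
    omega
  -- the starting point
  have hJC : (2 * J + 1) * Cn = J * Cn + (J + 1) * Cn := by ring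
  obtain ⟨m0, hm0, hm0'⟩ := D.L_geod v ((J + 1) * Cn + 1) (by omega)
  have key : ∀ j ≤ J, D.L (g1 ^ j * m0) + D.L ((g1 ^ j * m0)⁻¹ * v) = D.L v ∧
      D.L (g1 ^ j * m0) ≤ D.L m0 + j * Cn ∧ D.L m0 ≤ D.L (g1 ^ j * m0) + j * Cn := by
    intro j
    induction j with
    | zero =>
      intro _
      rw [pow_zero, one_mul, hm0']
      omega
    | succ j ih =>
      intro hj
      obtain ⟨k1, k2, k3⟩ := ih (by omega)
      have hjC : j * Cn ≤ (J - 1) * Cn := Nat.mul_le_mul_right _ (by omega)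
      have hJ1 : (J - 1) * Cn + Cn = J * Cn := by
        have : J - 1 + 1 = J := by omega
        calc (J - 1) * Cn + Cn = (J - 1 + 1) * Cn := by ring
          _ = J * Cn := by rw [this]
      have hJ2 : (J + 1) * Cn = J * Cn + Cn := by ring
      obtain ⟨t1, t2⟩ := D.tree_fact (a := g1) (v := v) (m := g1 ^ j * m0) k1 (by omega) (by omega)
      have e1 : g1 ^ (j + 1) * m0 = g1 * (g1 ^ j * m0) := by rw [pow_succ', mul_assoc]
      rw [e1]
      have hj2 : (j + 1) * Cn = j * Cn + Cn := by ring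
      refine ⟨t1, ?_, ?_⟩
      · have := D.L_mul (g1 ^ j * m0) ((g1 ^ j * m0)⁻¹ * (g1 * (g1 ^ j * m0)))
        rw [mul_inv_cancel_left] at this
        omega
      · have := D.L_mul (g1 * (g1 ^ j * m0)) ((g1 * (g1 ^ j * m0))⁻¹ * (g1 ^ j * m0))
        rw [mul_inv_cancel_left] at this
        have h3 := D.L_inv_mul_comm (g1 * (g1 ^ j * m0)) (g1 ^ j * m0)
        omega
  have hheight : ∀ j ≤ J, |D.e (g1 ^ j * m0)| ≤ h := by
    intro j hj
    obtain ⟨k1, k2, k3⟩ := key j hj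
    have hjC : j * Cn ≤ J * Cn := Nat.mul_le_mul_right _ hj
    have hJ2 : (J + 1) * Cn = J * Cn + Cn := by ring
    apply hh
    exact (D.tree_fact (a := g) (v := v) (m := g1 ^ j * m0) k1 (by omega) (by omega)).2
  have a1 := hheight 0 (by omega)
  have a2 := hheight J le_rfl
  rw [D.e_mul, D.e_pow] at a1 a2
  rw [abs_le] at a1 a2
  have : (J : ℤ) * 1 ≤ (J : ℤ) * D.e g1 := by
    apply mul_le_mul_of_nonneg_left _ (by positivity)
    omega
  push_cast at *
  omega

end Geo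

namespace Auto

variable {D : Geo H} (A : Auto D)

/-- a path without E-states which stays in a ball of the tree is short -/
theorem short_path (hV : A.LemV) (hF : A.LemF) : ∃ C : ℝ, 0 ≤ C ∧
    ∀ (p : A.Q) (V : List A.S) (ρ : ℝ), A.acc p → A.coacc (A.st p V) →
      (∀ t, ¬ A.EE (A.st p (V.take t))) → (∀ t ≤ V.length, (D.L (A.val (V.take t)) : ℝ) ≤ ρ) →
      (V.length : ℝ) ≤ C * (1 + ρ) := by
  classical
  obtain ⟨C1, hC1, h1⟩ := hV
  obtain ⟨C2, hC2, h2⟩ := hF
  set n := Fintype.card A.Q with hn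
  set C := C1 + C2 with hC
  refine ⟨(n + 1) * (2 * C + 2), by positivity, fun p V ρ hp hcoV hEE hρ => ?_⟩
  have hρ0 : 0 ≤ ρ := (Nat.cast_nonneg _).trans (hρ 0 (Nat.zero_le _))
  -- two positions with the same rank
  have hpos : ∀ t t', t ≤ t' → t' ≤ V.length →
      A.rk (A.st p (V.take t)) = A.rk (A.st p (V.take t')) → (t' : ℝ) - t ≤ C * (1 + 2 * ρ) := by
    intro t t' htt ht' hrk
    have e1 : V.take t' = V.take t ++ (V.take t').drop t := by
      have := List.take_append_drop t (V.take t')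
      rw [List.take_take, min_eq_left htt] at this
      exact this.symm
    set X := (V.take t').drop t with hX
    have hlenX : X.length = t' - t := by
      rw [hX, List.length_drop, List.length_take, min_eq_left ht']
    have hst : A.st p (V.take t') = A.st (A.st p (V.take t)) X := by
      rw [e1, A.st_append]
    have hsc : A.sc (A.st p (V.take t)) (A.st (A.st p (V.take t)) X) :=
      A.sc_of_rk_eq (by rw [← hst]; exact hrk.symm)
    have hlive : A.live (A.st p (V.take t)) := ⟨A.acc_st hp _, A.coacc_take hcoV t⟩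
    have hval : A.val (V.take t') = A.val (V.take t) * A.val X := by
      rw [e1, A.val_append]
    have hLX : (D.L (A.val X) : ℝ) ≤ 2 * ρ := by
      have e2 : A.val X = (A.val (V.take t))⁻¹ * A.val (V.take t') := by
        rw [hval, inv_mul_cancel_left]
      have h3 := D.L_mul (A.val (V.take t))⁻¹ (A.val (V.take t'))
      rw [D.L_inv, ← e2] at h3
      have h4 : (D.L (A.val X) : ℝ) ≤ D.L (A.val (V.take t)) + D.L (A.val (V.take t')) := by
        exact_mod_cast h3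
      have h5 := hρ t (htt.trans ht')
      have h6 := hρ t' ht'
      linarith
    have hXl : (X.length : ℝ) ≤ C * (1 + 2 * ρ) := by
      by_cases hv : A.Vert (A.st p (V.take t))
      · refine (h1 _ X hv hsc).trans ?_
        have : 1 + (D.L (A.val X) : ℝ) ≤ 1 + 2 * ρ := by linarith
        calc C1 * (1 + (D.L (A.val X) : ℝ)) ≤ C1 * (1 + 2 * ρ) := by gcongr
          _ ≤ C * (1 + 2 * ρ) := by
            apply mul_le_mul_of_nonneg_right _ (by positivity)
            linarith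
      · refine (h2 _ X hlive hv (hEE t) hsc).trans ?_
        have : 1 + (D.L (A.val X) : ℝ) ≤ 1 + 2 * ρ := by linarith
        calc C2 * (1 + (D.L (A.val X) : ℝ)) ≤ C2 * (1 + 2 * ρ) := by gcongr
          _ ≤ C * (1 + 2 * ρ) := by
            apply mul_le_mul_of_nonneg_right _ (by positivity)
            linarith
    rw [hlenX, Nat.cast_sub htt] at hXl
    exact hXl
  -- counting
  set B := ⌊C * (1 + 2 * ρ)⌋₊ with hB
  have hfib : ∀ r ∈ Finset.range (n + 1),
      ((Finset.range (V.length + 1)).filter fun t => A.rk (A.st p (V.take t)) = r).card ≤ B + 1 := by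
    intro r _
    set F := (Finset.range (V.length + 1)).filter fun t => A.rk (A.st p (V.take t)) = r with hF
    rcases F.eq_empty_or_nonempty with h | h
    · rw [h]; simp
    · have hmin := Finset.min'_mem F h
      have hsub : F ⊆ Finset.Icc (F.min' h) (F.min' h + B) := by
        intro t ht
        have h3 := Finset.min'_le F t ht
        rw [Finset.mem_Icc]
        refine ⟨h3, ?_⟩
        have hmF : ∀ t, t ∈ F → t < V.length + 1 ∧ A.rk (A.st p (V.take t)) = r := by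
          intro t ht
          rw [hF, Finset.mem_filter, Finset.mem_range] at ht
          exact ht
        replace hmin := hmF _ hmin
        replace ht := hmF _ ht
        have h4 := hpos (F.min' h) t h3 (by omega) (hmin.2.trans ht.2.symm)
        have h5 : ((t - F.min' h : ℕ) : ℝ) ≤ C * (1 + 2 * ρ) := by
          rw [Nat.cast_sub h3]; exact h4
        have h6 : t - F.min' h ≤ B := Nat.le_floor h5
        omega
      have := Finset.card_le_card hsub
      rw [Nat.card_Icc] at this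
      omega
  have hcard : (Finset.range (V.length + 1)).card ≤ (n + 1) * (B + 1) := by
    have hmaps : ∀ t ∈ Finset.range (V.length + 1), A.rk (A.st p (V.take t)) ∈
        Finset.range (n + 1) := by
      intro t _
      rw [Finset.mem_range]
      have := A.rk_le_card (A.st p (V.take t))
      omega
    rw [Finset.card_eq_sum_card_fiberwise hmaps]
    refine (Finset.sum_le_card_nsmul _ _ (B + 1) hfib).trans ?_
    rw [Finset.card_range, smul_eq_mul]
  rw [Finset.card_range] at hcard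
  have h3 : (V.length : ℝ) + 1 ≤ (n + 1) * (B + 1) := by exact_mod_cast hcard
  have h4 : (B : ℝ) ≤ C * (1 + 2 * ρ) := Nat.floor_le (by positivity)
  calc (V.length : ℝ) ≤ (n + 1) * (B + 1) := by linarith
    _ ≤ (n + 1) * (C * (1 + 2 * ρ) + 1) := by gcongr
    _ ≤ (n + 1) * ((2 * C + 2) * (1 + ρ)) := by
      apply mul_le_mul_of_nonneg_left _ (by positivity)
      nlinarith [mul_nonneg (by positivity : 0 ≤ C) hρ0]
    _ = _ := by ring

/-- completing words of bounded length -/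
theorem exists_zeta : ∃ Z : ℕ, ∀ q : A.Q, A.coacc q → ∃ ζ : List A.S, ζ.length ≤ Z ∧
    A.st q ζ ∈ A.M.accept := by
  classical
  have h : ∀ q : A.Q, ∃ ζ : List A.S, A.coacc q → A.st q ζ ∈ A.M.accept := by
    intro q
    by_cases hq : A.coacc q
    · obtain ⟨z, hz⟩ := hq
      exact ⟨z, fun _ => hz⟩
    · exact ⟨[], fun h => absurd h hq⟩
  choose ζ hζ using h
  refine ⟨∑ q, (ζ q).length, fun q hq => ⟨ζ q, ?_, hζ q hq⟩⟩
  exact Finset.single_le_sum (f := fun q => (ζ q).length) (fun _ _ => Nat.zero_le _)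
    (Finset.mem_univ q)

/-- fellow traveller estimate for an inserted loop -/
theorem loop_ft {s : A.Q} (hs : A.acc s) (B : List A.S) (hB : A.st s B = s) : ∃ C : ℝ, 0 ≤ C ∧
    ∀ V : List A.S, A.coacc (A.st s V) → ∀ t ≤ V.length,
      (D.L ((A.val (V.take t))⁻¹ * (A.val B * A.val (V.take t))) : ℝ) ≤
        A.k * (‖D.al ^ (D.e (A.val B)) - 1‖ * ‖D.x (A.val V)‖ + 2 * D.L (A.val V)) + C := by
  obtain ⟨u, hu⟩ := hs
  obtain ⟨ξ, hξ1, hξ⟩ := A.exists_xi
  obtain ⟨Z, hZ⟩ := A.exists_zeta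
  have hk := A.one_le_k
  have hk0 : 0 ≤ A.k := by linarith
  refine ⟨A.k * (ξ * B.length + 2 * (ξ * Z) + 2 * Z + B.length + 1) + B.length, by positivity,
    fun V hVc t ht => ?_⟩
  obtain ⟨ζ, hζl, hζ⟩ := hZ _ hVc
  set W := u ++ (V ++ ζ) with hW
  set W' := u ++ (B ++ (V ++ ζ)) with hW'
  have hWa : W ∈ A.M.accepts := by
    rw [A.mem_accepts, hW, A.st_append, hu, A.st_append]; exact hζ
  have hWa' : W' ∈ A.M.accepts := by
    rw [A.mem_accepts, hW', A.st_append, hu, A.st_append, hB, A.st_append]; exact hζ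
  have hft := A.ft' hWa hWa' (u.length + B.length + t)
  -- the prefixes
  have e1 : W'.take (u.length + B.length + t) = u ++ (B ++ V.take t) := by
    rw [hW', List.take_append, List.take_of_length_le (by omega),
      List.take_append, List.take_of_length_le (by omega), List.take_append_of_le_length (by omega)]
    congr 3
    omega
  obtain ⟨r, hr, e2⟩ : ∃ r : List A.S, r.length ≤ B.length ∧
      W.take (u.length + B.length + t) = (u ++ V.take t) ++ r := by
    refine ⟨(W.drop (u.length + t)).take B.length, List.length_take_le _ _, ?_⟩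
    have e3 : W.take (u.length + t) = u ++ V.take t := by
      rw [hW, List.take_append, List.take_of_length_le (by omega),
        List.take_append_of_le_length (by omega)]
      congr 2
      omega
    rw [← e3]
    have e4 : u.length + B.length + t = (u.length + t) + B.length := by ring
    rw [e4, List.take_add]
  rw [e1, e2] at hft
  simp only [A.val_append] at hft
  set v := A.val (V.take t) with hv
  have e5 : (A.val u * v * A.val r)⁻¹ * (A.val u * (A.val B * v)) =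
      (A.val r)⁻¹ * (v⁻¹ * (A.val B * v)) := by group
  rw [e5] at hft
  have hLr : (D.L (A.val r) : ℝ) ≤ B.length := by
    exact_mod_cast (A.L_val_le r).trans hr
  have h1 : (D.L (v⁻¹ * (A.val B * v)) : ℝ) ≤
      D.L (A.val r) + D.L ((A.val r)⁻¹ * (v⁻¹ * (A.val B * v))) := by
    have := D.L_mul (A.val r) ((A.val r)⁻¹ * (v⁻¹ * (A.val B * v)))
    rw [mul_inv_cancel_left] at this
    exact_mod_cast this
  have h2 := D.L_le_N ((A.val r)⁻¹ * (v⁻¹ * (A.val B * v)))
  -- the endpoints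
  set g := A.val V * A.val ζ with hg
  have hWg : (A.val W)⁻¹ * A.val W' = g⁻¹ * A.val B * g := by
    rw [hW, hW']
    simp only [A.val_append]
    rw [hg]; group
  have hζN : D.N (A.val ζ) ≤ ξ * Z := by
    refine (hξ ζ).trans ?_
    have : (ζ.length : ℝ) ≤ Z := by exact_mod_cast hζl
    gcongr
  have hLg : (D.L g : ℝ) ≤ D.L (A.val V) + Z := by
    have h3 := D.L_mul (A.val V) (A.val ζ)
    rw [← hg] at h3
    have h4 := (A.L_val_le ζ).trans hζl
    have : D.L g ≤ D.L (A.val V) + Z := by omega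
    exact_mod_cast this
  have hxg : ‖D.x g‖ ≤ ‖D.x (A.val V)‖ + ξ * Z := by
    rw [hg, D.x_mul]
    refine (norm_add_le _ _).trans ?_
    rw [norm_mul, D.norm_al_zpow, one_mul]
    have := D.norm_x_le_N (A.val ζ)
    linarith
  have hal : ‖D.al ^ (D.e (A.val B)) - 1‖ ≤ 2 := by
    refine (norm_sub_le _ _).trans ?_
    rw [D.norm_al_zpow, norm_one]; norm_num
  have hN : D.N ((A.val W)⁻¹ * A.val W') ≤ ‖D.al ^ (D.e (A.val B)) - 1‖ * ‖D.x (A.val V)‖ +
      2 * D.L (A.val V) + (ξ * B.length + 2 * (ξ * Z) + 2 * Z + B.length) := by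
    rw [hWg]
    unfold Geo.N
    have h3 : ‖D.x (g⁻¹ * A.val B * g)‖ ≤ ξ * B.length +
        ‖D.al ^ (D.e (A.val B)) - 1‖ * (‖D.x (A.val V)‖ + ξ * Z) := by
      rw [D.x_conj, norm_mul, D.norm_al_zpow, one_mul]
      refine (norm_add_le _ _).trans ?_
      rw [norm_mul]
      have := (D.norm_x_le_N (A.val B)).trans (hξ B)
      gcongr
    have h4 : (D.L (g⁻¹ * A.val B * g) : ℝ) ≤ 2 * D.L g + B.length := by
      have k1 := D.L_mul (g⁻¹ * A.val B) g
      have k2 := D.L_mul g⁻¹ (A.val B)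
      rw [D.L_inv] at k2
      have k3 := A.L_val_le B
      have : D.L (g⁻¹ * A.val B * g) ≤ 2 * D.L g + B.length := by omega
      exact_mod_cast this
    have h5 : ‖D.al ^ (D.e (A.val B)) - 1‖ * (ξ * Z) ≤ 2 * (ξ * Z) := by
      have : 0 ≤ ξ * Z := by positivity
      exact mul_le_mul_of_nonneg_right hal this
    nlinarith
  calc (D.L (v⁻¹ * (A.val B * v)) : ℝ) ≤ B.length + A.k * (D.N ((A.val W)⁻¹ * A.val W') + 1) := by
        linarith
    _ ≤ B.length + A.k * ((‖D.al ^ (D.e (A.val B)) - 1‖ * ‖D.x (A.val V)‖ +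
      2 * D.L (A.val V) + (ξ * B.length + 2 * (ξ * Z) + 2 * Z + B.length)) + 1) := by gcongr
    _ = _ := by ring

/-- Lemma R at one nice root -/
theorem lemR_root (hV : A.LemV) (hF : A.LemF) (hQ : A.LemQ) {s : A.Q} (hs : A.NiceRoot s) :
    ∃ C : ℝ, 0 ≤ C ∧ ∀ V : List A.S, A.coacc (A.st s V) →
      (V.length : ℝ) ≤ C * (1 + D.L (A.val V)) := by
  have hVert : A.Vert s := A.NiceRoot_Vert hs
  obtain ⟨⟨hacc, -⟩, A1, A2, hA1, hA2, he1, he2, hcen⟩ := hs
  obtain ⟨C3, hC3, hshort⟩ := A.short_path hV hF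
  obtain ⟨ξ, hξ1, hξ⟩ := A.exists_xi
  have hk := A.one_le_k
  have hk0 : 0 ≤ A.k := by linarith
  set e1 := D.e (A.val A1) with he1'
  set e2 := D.e (A.val A2) with he2'
  -- the exponent
  set ε : ℝ := 1 / (4 * C3 * A.k * ξ + 1) with hε
  have hε0 : 0 < ε := by positivity
  obtain ⟨n, hn, hal⟩ := D.al_close (e1 * e2) ε hε0
  set a1 := n * e2.natAbs with ha1
  set a2 := n * e1.natAbs with ha2
  set B1 := rep A1 a1 with hB1
  set B2 := rep A2 a2 with hB2
  have hB1s : A.st s B1 = s := A.st_rep hA1 _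
  have hB2s : A.st s B2 = s := A.st_rep hA2 _
  have vB1 : A.val B1 = A.val A1 ^ a1 := A.val_rep _ _
  have vB2 : A.val B2 = A.val A2 ^ a2 := A.val_rep _ _
  obtain ⟨K1, hK1, hft1⟩ := A.loop_ft hacc B1 hB1s
  obtain ⟨K2, hK2, hft2⟩ := A.loop_ft hacc B2 hB2s
  -- signs
  obtain ⟨σ1, hσ1, hσ1'⟩ : ∃ σ : ℤ, (σ = 1 ∨ σ = -1) ∧ e1 = σ * e1.natAbs := by
    rcases le_total 0 e1 with h | h
    · exact ⟨1, Or.inl rfl, by omega⟩
    · exact ⟨-1, Or.inr rfl, by omega⟩
  obtain ⟨σ2, hσ2, hσ2'⟩ : ∃ σ : ℤ, (σ = 1 ∨ σ = -1) ∧ e2 = σ * e2.natAbs := by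
    rcases le_total 0 e2 with h | h
    · exact ⟨1, Or.inl rfl, by omega⟩
    · exact ⟨-1, Or.inr rfl, by omega⟩
  have hn1 : 0 < e1.natAbs := Int.natAbs_pos.2 he1
  have hn2 : 0 < e2.natAbs := Int.natAbs_pos.2 he2
  set E : ℤ := (n : ℤ) * (e1.natAbs * e2.natAbs) with hE
  have hE0 : 0 < E := by positivity
  have hal' : ∀ τ : ℤ, (τ = 1 ∨ τ = -1) → ‖D.al ^ (τ * E) - 1‖ ≤ ε := by
    have hneg : ∀ z : ℤ, ‖D.al ^ (-z) - 1‖ = ‖D.al ^ z - 1‖ := by
      intro z
      have : D.al ^ (-z) - 1 = - (D.al ^ (-z) * (D.al ^ z - 1)) := by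
        rw [mul_sub, ← zpow_add₀ D.al_ne_zero, neg_add_cancel, zpow_zero]; ring
      rw [this, norm_neg, norm_mul, D.norm_al_zpow, one_mul]
    have hEe : E = σ1 * σ2 * (n * (e1 * e2)) := by
      have h1 : σ1 * σ1 = 1 := by rcases hσ1 with h | h <;> rw [h] <;> norm_num
      have h2 : σ2 * σ2 = 1 := by rcases hσ2 with h | h <;> rw [h] <;> norm_num
      calc E = (σ1 * σ1) * (σ2 * σ2) * E := by rw [h1, h2]; ring
        _ = σ1 * σ2 * (n * ((σ1 * e1.natAbs) * (σ2 * e2.natAbs))) := by rw [hE]; ring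
        _ = _ := by rw [← hσ1', ← hσ2']
    have hpm : ∀ τ : ℤ, (τ = 1 ∨ τ = -1) → ∃ κ : ℤ, (κ = 1 ∨ κ = -1) ∧
        τ * E = κ * (n * (e1 * e2)) := by
      intro τ hτ
      refine ⟨τ * (σ1 * σ2), ?_, by rw [hEe]; ring⟩
      rcases hτ with h | h <;> rcases hσ1 with h1 | h1 <;> rcases hσ2 with h2 | h2 <;>
        rw [h, h1, h2] <;> norm_num
    intro τ hτ
    obtain ⟨κ, hκ, hκ2⟩ := hpm τ hτ
    rw [hκ2]
    rcases hκ with h | h
    · rw [h, one_mul]; exact hal
    · rw [h, neg_one_mul, hneg]; exact hal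
  set g1 := A.val A1 ^ (σ1 * a1) with hg1
  set g2 := A.val A2 ^ (σ2 * a2) with hg2
  have eg1 : D.e g1 = E := by
    rw [hg1, D.e_zpow, ← he1']
    have h1 : σ1 * σ1 = 1 := by rcases hσ1 with h | h <;> rw [h] <;> norm_num
    calc σ1 * (a1 : ℤ) * e1 = σ1 * a1 * (σ1 * e1.natAbs) := by rw [← hσ1']
      _ = (σ1 * σ1) * E := by rw [ha1, hE]; push_cast; ring
      _ = E := by rw [h1, one_mul]
  have eg2 : D.e g2 = E := by
    rw [hg2, D.e_zpow, ← he2']
    have h1 : σ2 * σ2 = 1 := by rcases hσ2 with h | h <;> rw [h] <;> norm_num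
    calc σ2 * (a2 : ℤ) * e2 = σ2 * a2 * (σ2 * e2.natAbs) := by rw [← hσ2']
      _ = (σ2 * σ2) * E := by rw [ha2, hE]; push_cast; ring
      _ = E := by rw [h1, one_mul]
  have ha1pos : 0 < a1 := by positivity
  have ha2pos : 0 < a2 := by positivity
  have hz1 : σ1 * (a1 : ℤ) ≠ 0 := by
    apply mul_ne_zero
    · rcases hσ1 with h | h <;> rw [h] <;> norm_num
    · exact_mod_cast ha1pos.ne'
  have hz2 : σ2 * (a2 : ℤ) ≠ 0 := by
    apply mul_ne_zero
    · rcases hσ2 with h | h <;> rw [h] <;> norm_num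
    · exact_mod_cast ha2pos.ne'
  have hc : D.cen g1 ≠ D.cen g2 := by
    rw [hg1, hg2, D.cen_zpow he1 hz1, D.cen_zpow he2 hz2]; exact hcen
  obtain ⟨M, hM⟩ := D.tree_bound (g1 := g1) (g2 := g2) (by rw [eg1, eg2]) (by rw [eg1]; exact hE0) hc
  -- `g_i` is `val B_i` or its inverse
  have hconj : ∀ (σ : ℤ) (w : H) (a : ℕ) (v : H), (σ = 1 ∨ σ = -1) →
      D.L (v⁻¹ * (w ^ (σ * (a : ℤ)) * v)) = D.L (v⁻¹ * (w ^ a * v)) := by
    intro σ w a v hσ
    rcases hσ with h | h
    · rw [h, one_mul, zpow_natCast]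
    · rw [h, neg_one_mul, zpow_neg, zpow_natCast]
      have : v⁻¹ * ((w ^ a)⁻¹ * v) = (v⁻¹ * (w ^ a * v))⁻¹ := by group
      rw [this, D.L_inv]
  have heB1 : D.e (A.val B1) = σ1 * E := by
    rw [vB1, D.e_pow, ← he1']
    calc (a1 : ℤ) * e1 = a1 * (σ1 * e1.natAbs) := by rw [← hσ1']
      _ = σ1 * E := by rw [ha1, hE]; push_cast; ring
  have heB2 : D.e (A.val B2) = σ2 * E := by
    rw [vB2, D.e_pow, ← he2']
    calc (a2 : ℤ) * e2 = a2 * (σ2 * e2.natAbs) := by rw [← hσ2']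
      _ = σ2 * E := by rw [ha2, hE]; push_cast; ring
  have hal1 : ‖D.al ^ (D.e (A.val B1)) - 1‖ ≤ ε := by rw [heB1]; exact hal' _ hσ1
  have hal2 : ‖D.al ^ (D.e (A.val B2)) - 1‖ ≤ ε := by rw [heB2]; exact hal' _ hσ2
  refine ⟨2 * C3 * (4 * A.k + 2 * (K1 + K2) + 3 + M), by positivity, fun V hVc => ?_⟩
  -- the bound `Δ`
  set Δr : ℝ := A.k * (ε * (ξ * V.length) + 2 * D.L (A.val V)) + (K1 + K2) with hΔr
  have hxV : ‖D.x (A.val V)‖ ≤ ξ * V.length := (D.norm_x_le_N _).trans (hξ V)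
  have hΔ0 : 0 ≤ Δr := by positivity
  have hL1 : ∀ t ≤ V.length, D.L ((A.val (V.take t))⁻¹ * (g1 * A.val (V.take t))) ≤ ⌊Δr⌋₊ := by
    intro t ht
    apply Nat.le_floor
    rw [hg1, hconj _ _ _ _ hσ1, ← vB1]
    refine (hft1 V hVc t ht).trans ?_
    rw [hΔr]
    have : ‖D.al ^ (D.e (A.val B1)) - 1‖ * ‖D.x (A.val V)‖ ≤ ε * (ξ * V.length) := by gcongr
    have h2 : A.k * (‖D.al ^ (D.e (A.val B1)) - 1‖ * ‖D.x (A.val V)‖ + 2 * D.L (A.val V)) ≤
      A.k * (ε * (ξ * V.length) + 2 * D.L (A.val V)) := by gcongr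
    linarith
  have hL2 : ∀ t ≤ V.length, D.L ((A.val (V.take t))⁻¹ * (g2 * A.val (V.take t))) ≤ ⌊Δr⌋₊ := by
    intro t ht
    apply Nat.le_floor
    rw [hg2, hconj _ _ _ _ hσ2, ← vB2]
    refine (hft2 V hVc t ht).trans ?_
    rw [hΔr]
    have : ‖D.al ^ (D.e (A.val B2)) - 1‖ * ‖D.x (A.val V)‖ ≤ ε * (ξ * V.length) := by gcongr
    have h2 : A.k * (‖D.al ^ (D.e (A.val B2)) - 1‖ * ‖D.x (A.val V)‖ + 2 * D.L (A.val V)) ≤
      A.k * (ε * (ξ * V.length) + 2 * D.L (A.val V)) := by gcongr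
    linarith
  have hball : ∀ t ≤ V.length, (D.L (A.val (V.take t)) : ℝ) ≤ 2 * Δr + M := by
    intro t ht
    have h1 := hM _ _ (hL1 t ht) (hL2 t ht)
    have h2 : (D.L (A.val (V.take t)) : ℝ) ≤ 2 * (⌊Δr⌋₊ : ℝ) + M := by exact_mod_cast h1
    have h3 := Nat.floor_le hΔ0
    linarith
  have hEE : ∀ t, ¬ A.EE (A.st s (V.take t)) := fun t =>
    hQ s (V.take t) hVert (A.coacc_take hVc t)
  have h1 := hshort s V (2 * Δr + M) hacc hVc hEE hball
  -- absorb
  have habs : C3 * (2 * (A.k * (ε * (ξ * V.length)))) ≤ (V.length : ℝ) / 2 := by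
    have h2 : 2 * C3 * A.k * ξ * ε ≤ 1 / 2 := by
      rw [hε, mul_one_div, div_le_iff₀ (by positivity)]
      nlinarith [mul_nonneg (mul_nonneg hC3 hk0) (by linarith : (0:ℝ) ≤ ξ)]
    have h3 : (0:ℝ) ≤ V.length := by positivity
    nlinarith
  have hL0 : (0:ℝ) ≤ D.L (A.val V) := by positivity
  have h4 : C3 * (1 + (2 * Δr + M)) = C3 * (2 * (A.k * (ε * (ξ * V.length)))) +
      C3 * (1 + 4 * A.k * D.L (A.val V) + 2 * (K1 + K2) + M) := by
    rw [hΔr]; ring
  rw [h4] at h1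
  have h5 : (V.length : ℝ) ≤ 2 * (C3 * (1 + 4 * A.k * D.L (A.val V) + 2 * (K1 + K2) + M)) := by
    linarith
  refine h5.trans ?_
  have h6 : 1 + 4 * A.k * D.L (A.val V) + 2 * (K1 + K2) + M ≤
      (4 * A.k + 2 * (K1 + K2) + 3 + M) * (1 + D.L (A.val V)) := by
    have q1 : 0 ≤ (2 * (K1 + K2) + 3 + M) * D.L (A.val V) := by positivity
    nlinarith
  calc 2 * (C3 * (1 + 4 * A.k * D.L (A.val V) + 2 * (K1 + K2) + M))
      ≤ 2 * (C3 * ((4 * A.k + 2 * (K1 + K2) + 3 + M) * (1 + D.L (A.val V)))) := by gcongr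
    _ = _ := by ring

/-- Lemma R -/
theorem lemR (hV : A.LemV) (_hE : A.LemE) (hF : A.LemF) (hQ : A.LemQ) : A.LemR := by
  classical
  have h : ∀ q : A.Q, ∃ C : ℝ, 0 ≤ C ∧ ∀ V : List A.S, A.Nice q → A.coacc (A.st q V) →
      (V.length : ℝ) ≤ C * (1 + D.L (A.val V)) := by
    intro q
    by_cases hq : A.Nice q
    · obtain ⟨-, s, c, hs, hc⟩ := id hq
      obtain ⟨C, hC, hC2⟩ := A.lemR_root hV hF hQ hs
      refine ⟨C * (1 + c.length), by positivity, fun V _ hVc => ?_⟩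
      have h1 := hC2 (c ++ V) (by rw [A.st_append, hc]; exact hVc)
      rw [List.length_append, A.val_append] at h1
      have h2 : (D.L (A.val c * A.val V) : ℝ) ≤ c.length + D.L (A.val V) := by
        have h3 := D.L_mul (A.val c) (A.val V)
        have h4 := A.L_val_le c
        have : D.L (A.val c * A.val V) ≤ c.length + D.L (A.val V) := by omega
        exact_mod_cast this
      have h5 : (V.length : ℝ) ≤ C * (1 + (c.length + D.L (A.val V))) := by
        push_cast at h1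
        have h6 : (0:ℝ) ≤ c.length := by positivity
        calc (V.length : ℝ) ≤ c.length + V.length := by linarith
          _ ≤ C * (1 + D.L (A.val c * A.val V)) := h1
          _ ≤ _ := by gcongr
      refine h5.trans ?_
      rw [mul_assoc]
      apply mul_le_mul_of_nonneg_left _ hC
      have h6 : (0:ℝ) ≤ c.length * D.L (A.val V) := by positivity
      nlinarith
    · exact ⟨0, le_rfl, fun V hq' => absurd hq' hq⟩
  choose C hC0 hC using h
  refine ⟨∑ q, C q, Finset.sum_nonneg fun q _ => hC0 q, fun q V hq hVc => ?_⟩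
  refine (hC q V hq hVc).trans ?_
  apply mul_le_mul_of_nonneg_right _ (by positivity)
  exact Finset.single_le_sum (f := C) (fun q _ => hC0 q) (Finset.mem_univ q)

end Auto

end H57.QI
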